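import Pool.Agent.Work.MP_c71557_gt.S.Defs
import Pool.Agent.Work.MP_c71557_gt.K.Trl

set_option autoImplicit false
set_option linter.unusedVariables false

/-!
# MP_c71557_gt, module S/Trs: translation to the tangent structure (S-M)

`trl v` (K/Trl): `(trl v).g x = x + v`, `trl_mem : trl v ∈ Gf`.  Let `x = b.1.2`, `A` the lines of `b`;
`b₀` has the underlying set `univ`, the lines `lz A x` and the point `0`.
* `trl (-x) : b → b₀`: `V` = the open set of `b`; `y, z ∈ V` with `Same A y z`: for `m = l.zr ∈ lz A x`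
  (`mem_lz`), `m.ev (y - x) = l.lin (y - x) = l.ev y - l.ev x = l.ev y` (`Ln.zr_ev`, `Ln.ev_sub`), so
  `Same (lz A x) (y - x) (z - x)`; affine: `(⟨1,0,-x.1⟩, ⟨0,1,-x.2⟩)`.
* `trl x : b₀ → b`: let `V` be an open neighbourhood of `0` such that for `y ∈ V` and every `l ∈ A` with
  `l.ev x ≠ 0` the sign of `l.ev (y + x)` is the sign of `l.ev x` (`Ln.sign_nhds`,
  `Filter.eventually_all_finset`, continuity of the translation).  For `y, z ∈ V` with
  `Same (lz A x) y z` and `l ∈ A`: if `l.ev x = 0`, then `l.ev (y + x) = l.lin y = l.zr.ev y`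
  (`Ln.ev_add'`), otherwise both signs are the sign of `l.ev x`.
-/

noncomputable section

namespace C715

open Ang CategoryTheory ActCat
open scoped Topology

theorem trs_adm {P : Set P2 → Finset Ln → P2 → Prop} (b b0 : (GG P).Ob)
    (h1 : b0.1.1.1.1 = Set.univ) (h2 : b0.1.1.1.2 = lz b.1.1.1.2 b.1.2) (h3 : b0.1.2 = 0) :
    (GG P).Adm b (trl (-b.1.2)) b0 ∧ (GG P).Adm b0 (trl b.1.2) b := by
  have hobj := gPLf.Ob_open b.1.1
  have hx : b.1.2 ∈ b.1.1.1.1 := b.2.1
  have haff : ∀ (v : P2) (y : P2), (trl v).g y = ((⟨1, 0, v.1⟩ : L3).ev y, (⟨0, 1, v.2⟩ : L3).ev y) := by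
    intro v y
    rw [trl_g]
    refine Prod.ext ?_ ?_
    · change y.1 + v.1 = _
      simp [L3.ev]
    · change y.2 + v.2 = _
      simp [L3.ev]
  refine ⟨⟨trl_mem _, ?_, b.1.1.1.1, hobj, hx, le_rfl, ?_, ?_⟩, ⟨trl_mem _, ?_, ?_⟩⟩
  · rw [h3, trl_g, add_neg_cancel]
  · intro y hy z hz h m hm
    rw [h2] at hm
    obtain ⟨l, hl, h0, rfl⟩ := mem_lz.1 hm
    rw [trl_g, trl_g, Ln.zr_ev, Ln.zr_ev, ← sub_eq_add_neg, ← sub_eq_add_neg, ← Ln.ev_sub,
      ← Ln.ev_sub, h0, sub_zero, sub_zero]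
    exact h l hl
  · intro y hy
    exact ⟨⟨1, 0, (-b.1.2).1⟩, ⟨0, 1, (-b.1.2).2⟩, fun z _ => haff _ z⟩
  · rw [h3, trl_g, zero_add]
  · have hev : ∀ᶠ y in 𝓝 b.1.2, ∀ l ∈ b.1.1.1.2, l.ev b.1.2 ≠ 0 →
        SignType.sign (l.ev b.1.2) = SignType.sign (l.ev y) := by
      rw [Filter.eventually_all_finset]
      intro l hl
      by_cases h0 : l.ev b.1.2 = 0
      · exact Filter.Eventually.of_forall fun y hne => absurd h0 hne
      · filter_upwards [l.sign_nhds h0] with y hy _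
        exact hy
    have ht : Filter.Tendsto (fun y : P2 => y + b.1.2) (𝓝 0) (𝓝 b.1.2) := by
      have hc : Continuous (fun y : P2 => y + b.1.2) := continuous_id.add continuous_const
      have h4 := hc.tendsto 0
      rwa [zero_add] at h4
    obtain ⟨V, hVs, hV, h0V⟩ := eventually_nhds_iff.1 (ht.eventually hev)
    refine ⟨V, hV, ?_, ?_, ?_, ?_⟩
    · rw [h3]
      exact h0V
    · rw [h1]
      exact Set.subset_univ _
    · intro y hy z hz h l hl
      rw [trl_g, trl_g]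
      by_cases h0 : l.ev b.1.2 = 0
      · have h5 := h l.zr (by
          rw [h2]
          exact mem_lz.2 ⟨l, hl, h0, rfl⟩)
        rw [Ln.zr_ev, Ln.zr_ev] at h5
        rw [add_comm y, add_comm z, Ln.ev_add', Ln.ev_add', h0, zero_add, zero_add]
        exact h5
      · exact (hVs y hy l hl h0).symm.trans (hVs z hz l hl h0)
    · intro y hy
      exact ⟨⟨1, 0, b.1.2.1⟩, ⟨0, 1, b.1.2.2⟩, fun z _ => haff _ z⟩

end C715
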