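import Pool.Agent.Work.MP_c71557_gt.S.Sc
import Pool.Agent.Work.MP_c71557_gt.S.Trs
import Pool.Agent.Work.MP_c71557_gt.A.ActFF

set_option autoImplicit false
set_option linter.unusedVariables false

/-!
# MP_c71557_gt, module S/Cg: cones with the origin and germs (M)

`idFun f hAdm hN` is by definition `functor f (MonoidHom.id FGr) hAdm hN`: `hiso_functor` (A/ActFF).
For an object `p` of `T.El`: `h.pt p.1 p.2 = 0`, `0` in the open cone `U` of `p.1`, so `U = univ` (it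
contains a ball around `0` and is homogeneous), and `f p = (kOb p.1, 0)` (`hf`).
* full: `g' : f a → f b` in `GG P`: `g' ∈ Gf`, `g'.g 0 = 0`, `CellMap V A g'.g A'`, `V` open, `0 ∈ V`.
  `scale_cell` (S/Sc) gives `g ∈ Cnf` with `g.ph 0 = g'.ph 0`, `g.g = g'.g` near `0`, and
  `CellMap univ A g.g A'`.  So `g` is admissible `a.1 → b.1` in `gCnf.Str`, and `T.act _ a.2 = b.2` because
  both points are `0` (`h.inj`, `h.act`, `Cnf_zero`).  `g⁻¹ * g' ∈ (GG P).N (f a)`: in `Gf`, the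
  identity near `0` (`g.g⁻¹ (g'.g y) = g.g⁻¹ (g.g y) = y`), and
  `ph 0 = (g.ph 0)⁻¹ * g'.ph 0 = 1` (`g'.g 0 = 0`, `g.g⁻¹ 0 = 0`).
* faithful: `g, g' ∈ Cnf`, `n = g⁻¹ * g' ∈ (GG P).N (f a)`: `n ∈ Cnf`, `n.ph 0 = 1`, so `n = 1`
  (`Cnf_ext`, C/HfA), and `1 ∈ N`.
* essentially surjective: `b' = ((U, A), x)`: `a = (⟨(univ, lz A x), CU_univ, lz_c⟩, z)` with
  `h.pt _ z = 0` (`h.range`, `hP.cn`), `g = trl x`: `trs_adm` (S/Trs), `trl_inv` (K/Trl).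
-/

noncomputable section

namespace C715

open Ang CategoryTheory ActCat
open scoped Topology

/-- a cone which contains the origin is the plane -/
private theorem univ_of_zero (p : gCnf.Str.Ob) (h : (0 : P2) ∈ p.1.1) : p.1.1 = Set.univ := by
  rw [Set.eq_univ_iff_forall]
  intro x
  have hopen : IsOpen p.1.1 := p.2.1.1
  have hom : ∀ (t : ℝ) (x : P2), 0 < t → x ∈ p.1.1 → t • x ∈ p.1.1 := p.2.1.2.2.2
  have h1 : Filter.Tendsto (fun t : ℝ => t • x) (𝓝 0) (𝓝 (0 : P2)) := by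
    have h2 : Continuous (fun t : ℝ => t • x) := continuous_id.smul continuous_const
    have h3 := h2.tendsto 0
    rwa [zero_smul] at h3
  obtain ⟨ε, hε, h2⟩ := Metric.eventually_nhds_iff.1 (h1.eventually (hopen.mem_nhds h))
  have h3 : (ε / 2) • x ∈ p.1.1 := h2 (by
    rw [Real.dist_eq, sub_zero, abs_of_pos (half_pos hε)]
    exact half_lt_self hε)
  have h4 := hom (ε / 2)⁻¹ _ (inv_pos.2 (half_pos hε)) h3
  rwa [smul_smul, inv_mul_cancel₀ (half_pos hε).ne', one_smul] at h4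

theorem hiso_cone {P : Set P2 → Finset Ln → P2 → Prop} (hP : PrP P) {T : ActSet gCnf.Str}
    (h : PtS gCnf T (fun U A y => y = 0 ∧ (0 : P2) ∈ U ∧ P U A 0)) (f : T.El.Ob → (GG P).Ob)
    (hf : ∀ p, (f p).1 = (kOb p.1, 0))
    (hAdm : ∀ {a b : T.El.Ob} {g : FGr}, T.El.Adm a g b → (GG P).Adm (f a) g (f b))
    (hN : ∀ {a : T.El.Ob} {n : FGr}, n ∈ T.El.N a → n ∈ (GG P).N (f a)) :
    HIso (idFun f hAdm hN) := by
  have hpt : ∀ (p : gCnf.Str.Ob) (x : T.X p), h.pt p x = 0 ∧ (0 : P2) ∈ p.1.1 := by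
    intro p x
    obtain ⟨h1, h2, -⟩ := (h.range p (h.pt p x)).1 ⟨x, rfl⟩
    exact ⟨h1, h2⟩
  have hun : ∀ a : T.El.Ob, a.1.1.1 = Set.univ := fun a => univ_of_zero a.1 (hpt a.1 a.2).2
  have hp0 : ∀ a : T.El.Ob, (f a).1.2 = 0 := fun a => by rw [hf a]
  have hpA : ∀ a : T.El.Ob, (f a).1.1.1.2 = a.1.1.2 := fun a => by rw [hf a]; rfl
  have hpU : ∀ a : T.El.Ob, (f a).1.1.1.1 = a.1.1.1 := fun a => by rw [hf a]; rfl
  refine hiso_functor (A := T.El) (A' := GG P) f (MonoidHom.id FGr) (fun h => hAdm h) (fun h => hN h) ?_ ?_ ?_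
  · rintro a b g' ⟨hg', e, V, hV, hx, hVU, hc⟩
    rw [hp0 a, hp0 b] at e
    rw [hp0 a] at hx
    rw [hpA a, hpA b] at hc
    obtain ⟨g, hg, hph, hev, hcell⟩ := scale_cell hg' e a.1.2.2 b.1.2.2 hV hx hc
    have hadm : gCnf.Str.Adm a.1 g b.1 :=
      ⟨hg, fun x _ => by rw [hun b]; trivial, hcell.sub (Set.subset_univ _)⟩
    refine ⟨g, ⟨hadm, ?_⟩, ?_⟩
    · apply h.inj b.1
      rw [h.act, (hpt a.1 a.2).1, (hpt b.1 b.2).1, Cnf_zero hg]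
    · change g⁻¹ * g' ∈ (GG P).N (f a)
      rw [mem_GGN, hp0 a]
      have h0 : g.g⁻¹ 0 = 0 := by
        rw [Equiv.Perm.inv_eq_iff_eq, Cnf_zero hg]
      refine ⟨Gf.mul_mem (Gf.inv_mem hg.1) hg', ?_, ?_⟩
      · filter_upwards [hev] with y hy
        change g.g⁻¹ (g'.g y) = y
        rw [← hy]
        exact g.g.symm_apply_apply y
      · rw [FGr.mul_ph, e, FGr.inv_ph, h0, hph, inv_mul_cancel]
  · rintro a b g g' hg hg' hn
    have hn' : g⁻¹ * g' ∈ (GG P).N (f a) := hn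
    rw [mem_GGN, hp0 a] at hn'
    have h1 : g⁻¹ * g' ∈ Cnf := Cnf.mul_mem (Cnf.inv_mem hg.1.1) hg'.1.1
    have h2 : g⁻¹ * g' = 1 := Cnf_ext h1 Cnf.one_mem (by rw [hn'.2.2, FGr.one_ph])
    rw [h2]
    exact Subgroup.one_mem _
  · intro b'
    let q : gCnf.Str.Ob := ⟨(Set.univ, lz b'.1.1.1.2 b'.1.2), CU_univ, lz_c⟩
    obtain ⟨z, hz⟩ := (h.range q 0).2 ⟨rfl, trivial, hP.cn _ _ _ b'.2.2⟩
    have h1 : (f ⟨q, z⟩).1.1.1.1 = Set.univ := hpU ⟨q, z⟩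
    have h2 : (f ⟨q, z⟩).1.1.1.2 = lz b'.1.1.1.2 b'.1.2 := hpA ⟨q, z⟩
    obtain ⟨h3, h4⟩ := trs_adm b' (f ⟨q, z⟩) h1 h2 (hp0 _)
    refine ⟨⟨q, z⟩, trl b'.1.2, h4, ?_⟩
    rw [trl_inv]
    exact h3

end C715
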