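import Pool.Agent.Work.MP_c71557_gt.S.Tg
import Pool.Agent.Work.MP_c71557_gt.S.Cg

set_option autoImplicit false
set_option linter.unusedVariables false

/-!
# MP_c71557_gt, module S/Fin: the points

`kap` is a quasi-isomorphism on the coefficient system of the vertices.
-/

noncomputable section

namespace C715

open Ang CategoryTheory ActCat
open scoped Topology

theorem GG_adm {P : Set P2 → Finset Ln → P2 → Prop} {b b' : (GG P).Ob} {a : FGr}
    (h : gPLf.Str.Adm b.1.1 a b'.1.1) (e : a.g b.1.2 = b'.1.2) : (GG P).Adm b a b' :=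
  ⟨h.1, e, b.1.1.1.1, gPLf.Ob_open b.1.1, b.2.1, le_rfl, h.2.2⟩

theorem GG_N {P : Set P2 → Finset Ln → P2 → Prop} {b : (GG P).Ob} {n : FGr}
    (h : n ∈ gPLf.Str.N b.1.1) : n ∈ (GG P).N b := by
  refine ⟨h.1, ?_, (h.2 _ b.2.1).2⟩
  filter_upwards [(gPLf.Ob_open b.1.1).mem_nhds b.2.1] with y hy
  exact (h.2 y hy).1

/-- the origin as a point of cones -/
abbrev SO : ActSet gCnf.Str := gCnf.S0.sub (fun p => Or p.1.1) (fun h x hx => Or_act h x hx)

/-- the origin as a point which is not a vertex -/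
abbrev YO (p : gCnf.Str.Ob) : Set (SO.X p) := {x | x.1 ∈ NV p.1.1 p.1.2}

theorem YO_act {p q : gCnf.Str.Ob} {a : FGr} (h : gCnf.Str.Adm p a q) (x : SO.X p)
    (hx : x ∈ YO p) : SO.act h x ∈ YO q := gCnf.NV_act h x.1 hx

/-- all points -/
def ptAll : PtS gPLf gPLf.S0 (fun U A y => y ∈ U ∧ pT U A y) where
  pt p x := x.1
  inj p := Subtype.val_injective
  act h x := rfl
  range p y := ⟨by
    rintro ⟨x, rfl⟩
    exact ⟨x.2, trivial⟩, fun h => ⟨⟨y, h.1⟩, rfl⟩⟩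

/-- the points which are not vertices -/
def ptNV : PtS gPLf (gPLf.S0.sub (fun p => NV p.1.1 p.1.2) gPLf.NV_act)
    (fun U A y => y ∈ U ∧ pNV U A y) where
  pt p x := x.1.1
  inj p := Subtype.val_injective.comp Subtype.val_injective
  act h x := rfl
  range p y := ⟨by
    rintro ⟨x, rfl⟩
    exact ⟨x.1.2, x.2⟩, fun h => ⟨⟨⟨y, h.1⟩, h.2⟩, rfl⟩⟩

/-- the origin -/
def ptO : PtS gCnf SO (fun U A y => y = 0 ∧ (0 : P2) ∈ U ∧ pT U A 0) where
  pt p x := x.1.1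
  inj p := Subtype.val_injective.comp Subtype.val_injective
  act h x := rfl
  range p y := ⟨by
    rintro ⟨x, rfl⟩
    have h1 : x.1.1 = 0 := x.2
    exact ⟨h1, by rw [← h1]; exact x.1.2, trivial⟩, fun h => ⟨⟨⟨y, by rw [h.1]; exact h.2.1⟩, h.1⟩, rfl⟩⟩

/-- the origin, not a vertex -/
def ptOV : PtS gCnf (SO.sub YO YO_act) (fun U A y => y = 0 ∧ (0 : P2) ∈ U ∧ pNV U A 0) where
  pt p x := x.1.1.1
  inj p := Subtype.val_injective.comp (Subtype.val_injective.comp Subtype.val_injective)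
  act h x := rfl
  range p y := ⟨by
    rintro ⟨x, rfl⟩
    have h1 : x.1.1.1 = 0 := x.1.2
    exact ⟨h1, by rw [← h1]; exact x.1.1.2, by rw [← h1]; exact x.2⟩, fun h =>
    ⟨⟨⟨⟨y, by rw [h.1]; exact h.2.1⟩, h.1⟩, by
      change pNV p.1.1 p.1.2 y
      rw [h.1]
      exact h.2.2⟩, rfl⟩⟩

/-- all points -/
def fAll (p : gPLf.S0.El.Ob) : (GG pT).Ob := ⟨(p.1, p.2.1), p.2.2, trivial⟩

theorem fAll_adm {p q : gPLf.S0.El.Ob} {g : FGr} (h : gPLf.S0.El.Adm p g q) :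
    (GG pT).Adm (fAll p) g (fAll q) := GG_adm h.1 (by
  obtain ⟨h1, e⟩ := h
  exact congrArg Subtype.val e)

theorem fAll_N {p : gPLf.S0.El.Ob} {n : FGr} (h : n ∈ gPLf.S0.El.N p) :
    n ∈ (GG pT).N (fAll p) := GG_N h

/-- the non vertices -/
abbrev SV : ActSet gPLf.Str := gPLf.S0.sub (fun p => NV p.1.1 p.1.2) gPLf.NV_act

/-- non vertices -/
def fNV (p : SV.El.Ob) : (GG pNV).Ob := ⟨(p.1, p.2.1.1), p.2.1.2, p.2.2⟩

theorem fNV_adm {p q : SV.El.Ob} {g : FGr} (h : SV.El.Adm p g q) :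
    (GG pNV).Adm (fNV p) g (fNV q) := GG_adm h.1 (by
  obtain ⟨h1, e⟩ := h
  exact congrArg (fun x => x.1.1) e)

theorem fNV_N {p : SV.El.Ob} {n : FGr} (h : n ∈ SV.El.N p) : n ∈ (GG pNV).N (fNV p) := GG_N h

/-- all points and germs -/
def eAll : gPLf.S0.El.Obj ⥤ (GG pT).Obj :=
  idFun (A := gPLf.S0.El) (A' := GG pT) fAll fAll_adm fAll_N

/-- non vertices and germs -/
def eNV : SV.El.Obj ⥤ (GG pNV).Obj := idFun (A := SV.El) (A' := GG pNV) fNV fNV_adm fNV_N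

theorem hiso_eAll : HIso eAll := hiso_TG prT ptAll fAll (fun _ => rfl) fAll_adm fAll_N

theorem hiso_eNV : HIso eNV := hiso_TG prNV ptNV fNV (fun _ => rfl) fNV_adm fNV_N

/-- origins to points -/
abbrev xiO (p : gCnf.Str.Ob) (x : SO.X p) : gPLf.S0.X (kOb p) := x.1

/-- origins -/
def fO (p : SO.El.Ob) : (GG pT).Ob := fAll ⟨kOb p.1, xiO p.1 p.2⟩

theorem fO_adm {p q : SO.El.Ob} {g : FGr} (h : SO.El.Adm p g q) :
    (GG pT).Adm (fO p) g (fO q) := GG_adm (kAdm h.1) (by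
  obtain ⟨h1, e⟩ := h
  exact congrArg (fun x => x.1.1) e)

theorem fO_N {p : SO.El.Ob} {n : FGr} (h : n ∈ SO.El.N p) : n ∈ (GG pT).N (fO p) :=
  GG_N (kN h)

theorem hiso_elO : HIso (ActSet.elMap SO gPLf.S0 kOb kAdm kN xiO (fun _ _ => rfl)) := by
  refine HIso.of_comp_right hiso_eAll ?_
  have h : ActSet.elMap SO gPLf.S0 kOb kAdm kN xiO (fun _ _ => rfl) ⋙ eAll =
      idFun (A := SO.El) (A' := GG pT) fO fO_adm fO_N := by
    refine CategoryTheory.Functor.ext (fun _ => rfl) (fun x y u => ?_)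
    induction u using ActCat.ind with
    | h g hg =>
      refine Eq.trans ?_ (Category.id_comp _).symm
      exact (Category.comp_id _).symm
  refine (congrArg (fun F : SO.El.Obj ⥤ (GG pT).Obj => HIso F) h).mpr ?_
  exact hiso_cone prT ptO fO (fun p => Prod.ext rfl p.2.2) fO_adm fO_N

theorem xi_NV (p : gCnf.Str.Ob) (x : SO.X p) :
    xiO p x ∈ NV (kOb p).1.1 (kOb p).1.2 ↔ x ∈ YO p := Iff.rfl

/-- origins which are not vertices -/
def fOV (p : (SO.sub YO YO_act).El.Ob) : (GG pNV).Ob :=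
  fNV ⟨kOb p.1, ⟨xiO p.1 p.2.1, (xi_NV p.1 p.2.1).2 p.2.2⟩⟩

theorem fOV_adm {p q : (SO.sub YO YO_act).El.Ob} {g : FGr}
    (h : (SO.sub YO YO_act).El.Adm p g q) : (GG pNV).Adm (fOV p) g (fOV q) :=
  GG_adm (kAdm h.1) (by
    obtain ⟨h1, e⟩ := h
    exact congrArg (fun x => x.1.1.1) e)

theorem fOV_N {p : (SO.sub YO YO_act).El.Ob} {n : FGr} (h : n ∈ (SO.sub YO YO_act).El.N p) :
    n ∈ (GG pNV).N (fOV p) := GG_N (kN h)

theorem hiso_elV : HIso (ActSet.elMap (SO.sub YO YO_act) SV kOb kAdm kN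
    (fun a x => ⟨xiO a x.1, (xi_NV a x.1).2 x.2⟩) (fun h x => rfl)) := by
  refine HIso.of_comp_right hiso_eNV ?_
  have h : ActSet.elMap (SO.sub YO YO_act) SV kOb kAdm kN
      (fun a x => ⟨xiO a x.1, (xi_NV a x.1).2 x.2⟩) (fun h x => rfl) ⋙ eNV =
      idFun (A := (SO.sub YO YO_act).El) (A' := GG pNV) fOV fOV_adm fOV_N := by
    refine CategoryTheory.Functor.ext (fun _ => rfl) (fun x y u => ?_)
    induction u using ActCat.ind with
    | h g hg =>
      refine Eq.trans ?_ (Category.id_comp _).symm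
      exact (Category.comp_id _).symm
  refine (congrArg (fun F : (SO.sub YO YO_act).El.Obj ⥤ (GG pNV).Obj => HIso F) h).mpr ?_
  exact hiso_cone prNV ptOV fOV (fun p => Prod.ext rfl p.2.1.2) fOV_adm fOV_N

/-- the vertices of a cone structured set -/
theorem vertex_zero (p : gCnf.Str.Ob) (y : gPLf.S0.X (kOb p))
    (h : y ∉ NV (kOb p).1.1 (kOb p).1.2) : y.1 = 0 := by
  by_contra hne
  refine h ⟨(2 : ℝ) • y.1, p.2.1.2.2.2 2 y.1 two_pos y.2, fun e => hne ?_, fun l hl => ?_⟩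
  · rw [two_smul] at e
    exact add_eq_left.1 e
  · have hc : l.c = 0 := p.2.2 l hl
    have e : l.ev ((2 : ℝ) • y.1) = 2 * l.ev y.1 := by
      simp only [Ln.ev, Prod.smul_fst, Prod.smul_snd, smul_eq_mul, hc]
      ring
    rw [e, sign_mul, sign_pos (two_pos : (0 : ℝ) < 2), one_mul]

theorem F0_qis : Cx.Qis (barPush kap gPLf.F0) :=
  ActSet.qf_qis SO gPLf.S0 kOb kAdm kN xiO (fun _ _ => rfl) YO YO_act
    (fun p => NV p.1.1 p.1.2) gPLf.NV_act xi_NV (fun p => Subtype.val_injective)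
    (fun p y hy => ⟨⟨y, vertex_zero p y hy⟩, rfl⟩) hiso_elO hiso_elV

end C715
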