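import Pool.Agent.Work.MP_c71557_gt.K.Coefs
import Pool.Agent.Work.MP_c71557_gt.C.DefsK

set_option autoImplicit false
set_option linter.unusedVariables false

/-!
# MP_c71557_gt, block S (points): definitions

`GG P`: structured open sets with a point satisfying the predicate `P`, germs at the point.
`PrP P`: the properties of the predicates used (`P = True` and `P = NV`).  `PtS`: systems of points.
-/

noncomputable section

namespace C715

open Ang CategoryTheory ActCat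
open scoped Topology

/-- the line through the origin parallel to `l` -/
def Ln.zr (l : Ln) : Ln := ⟨l.a, l.b, 0, l.ne⟩

theorem Ln.zr_ev (l : Ln) (y : P2) : l.zr.ev y = l.lin y := by
  simp only [Ln.ev, Ln.lin, Ln.zr, add_zero]

theorem Ln.ev_add' (l : Ln) (x y : P2) : l.ev (x + y) = l.ev x + l.lin y := by
  simp only [Ln.ev, Ln.lin, Prod.fst_add, Prod.snd_add]
  ring

open Classical in
/-- the lines of `A` through `x`, translated to the origin -/
def lz (A : Finset Ln) (x : P2) : Finset Ln := (A.filter (fun l => l.ev x = 0)).image Ln.zr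

theorem mem_lz {A : Finset Ln} {x : P2} {m : Ln} :
    m ∈ lz A x ↔ ∃ l ∈ A, l.ev x = 0 ∧ l.zr = m := by
  classical
  unfold lz
  rw [Finset.mem_image]
  constructor
  · rintro ⟨l, hl, e⟩
    rw [Finset.mem_filter] at hl
    exact ⟨l, hl.1, hl.2, e⟩
  · rintro ⟨l, hl, h, e⟩
    exact ⟨l, Finset.mem_filter.2 ⟨hl, h⟩, e⟩

theorem lz_c {A : Finset Ln} {x : P2} : ∀ m ∈ lz A x, m.c = 0 := by
  intro m hm
  obtain ⟨l, _, _, rfl⟩ := mem_lz.1 hm
  rfl

/-- signs along a segment -/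
theorem Same.sg {A : Finset Ln} {x y : P2} (h : Same A x y) {s : ℝ} (h0 : 0 ≤ s) (h1 : s ≤ 1) :
    Same A x (x + s • (y - x)) := by
  intro l hl
  have e : l.ev (x + s • (y - x)) = (1 - s) * l.ev x + s * l.ev y := by
    rw [Ln.ev_add', Ln.lin_smul, ← Ln.ev_sub]
    ring
  have h2 := h l hl
  rw [e]
  rcases lt_trichotomy (l.ev x) 0 with h3 | h3 | h3
  · have h4 : l.ev y < 0 := by
      rw [sign_neg h3] at h2
      exact sign_eq_neg_one_iff.1 h2.symm
    have h5 : (1 - s) * l.ev x + s * l.ev y < 0 := by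
      rcases h0.eq_or_lt with rfl | h6
      · linarith
      · have h7 := mul_neg_of_pos_of_neg h6 h4
        have h8 := mul_nonpos_of_nonneg_of_nonpos (sub_nonneg.2 h1) h3.le
        linarith
    rw [sign_neg h3, sign_neg h5]
  · have h4 : l.ev y = 0 := by
      rw [h3, sign_zero] at h2
      exact sign_eq_zero_iff.1 h2.symm
    rw [h3, h4, mul_zero, mul_zero, add_zero]
  · have h4 : 0 < l.ev y := by
      rw [sign_pos h3] at h2
      exact sign_eq_one_iff.1 h2.symm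
    have h5 : 0 < (1 - s) * l.ev x + s * l.ev y := by
      rcases h0.eq_or_lt with rfl | h6
      · linarith
      · have h7 := mul_pos h6 h4
        have h8 := mul_nonneg (sub_nonneg.2 h1) h3.le
        linarith
    rw [sign_pos h3, sign_pos h5]

/-- the properties of the predicates -/
structure PrP (P : Set P2 → Finset Ln → P2 → Prop) : Prop where
  /-- smaller open sets -/
  sh : ∀ (U V : Set P2) (A : Finset Ln) (x : P2), P U A x → IsOpen V → x ∈ V → V ⊆ U → P V A x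
  /-- passage to the tangent structure -/
  cn : ∀ (U : Set P2) (A : Finset Ln) (x : P2), P U A x → P Set.univ (lz A x) 0

/-- not a vertex -/
def pNV (U : Set P2) (A : Finset Ln) (x : P2) : Prop := ∃ y ∈ U, y ≠ x ∧ Same A x y

/-- no condition -/
def pT (_ : Set P2) (_ : Finset Ln) (_ : P2) : Prop := True

theorem prT : PrP pT := ⟨fun _ _ _ _ _ _ _ _ => trivial, fun _ _ _ _ => trivial⟩

theorem prNV : PrP pNV where
  sh U V A x h hV hx hVU := by
    obtain ⟨y, hy, hne, e⟩ := h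
    have h1 : Filter.Tendsto (fun s : ℝ => x + s • (y - x)) (𝓝 0) (𝓝 x) := by
      have h2 : Continuous (fun s : ℝ => x + s • (y - x)) :=
        continuous_const.add (continuous_id.smul continuous_const)
      have h3 := h2.tendsto 0
      rwa [zero_smul, add_zero] at h3
    have h2 := h1.eventually (hV.mem_nhds hx)
    obtain ⟨ε, hε, h3⟩ := Metric.eventually_nhds_iff.1 h2
    have hs : 0 < min (ε / 2) 1 := lt_min (half_pos hε) one_pos
    refine ⟨x + min (ε / 2) 1 • (y - x), h3 ?_, fun k => ?_, e.sg hs.le (min_le_right _ _)⟩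
    · rw [Real.dist_eq, sub_zero, abs_of_pos hs]
      exact (min_le_left _ _).trans_lt (half_lt_self hε)
    · have h4 : min (ε / 2) 1 • (y - x) = 0 := by
        rw [add_eq_left] at k
        exact k
      rcases smul_eq_zero.1 h4 with h5 | h5
      · exact hs.ne' h5
      · exact hne (sub_eq_zero.1 h5)
  cn U A x h := by
    obtain ⟨y, hy, hne, e⟩ := h
    refine ⟨y - x, trivial, sub_ne_zero.2 hne, fun m hm => ?_⟩
    obtain ⟨l, hl, h0, rfl⟩ := mem_lz.1 hm
    have h1 := e l hl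
    rw [h0, sign_zero] at h1
    have h2 : l.ev y = 0 := sign_eq_zero_iff.1 h1.symm
    rw [Ln.zr_ev, Ln.zr_ev, ← Ln.ev_sub, h0, h2]
    have h3 : l.lin 0 = 0 := by simp [Ln.lin]
    rw [h3, sub_self]

/-- structured open sets with a point satisfying `P`, germs at the point -/
def GG (P : Set P2 → Finset Ln → P2 → Prop) : ActCat FGr where
  Ob := {b : gPLf.Str.Ob × P2 // b.2 ∈ b.1.1.1 ∧ P b.1.1.1 b.1.1.2 b.2}
  Adm b a b' := a ∈ Gf ∧ a.g b.1.2 = b'.1.2 ∧ ∃ V : Set P2, IsOpen V ∧ b.1.2 ∈ V ∧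
    V ⊆ b.1.1.1.1 ∧ CellMap V b.1.1.1.2 a.g b'.1.1.1.2
  N b :=
    { carrier := {a | a ∈ Gf ∧ (∀ᶠ y in 𝓝 b.1.2, a.g y = y) ∧ a.ph b.1.2 = 1}
      mul_mem' := by
        rintro a c ⟨ha, h1, h2⟩ ⟨hc, h3, h4⟩
        refine ⟨Gf.mul_mem ha hc, ?_, ?_⟩
        · filter_upwards [h1, h3] with y e1 e2
          change a.g (c.g y) = y
          rw [e2, e1]
        · rw [FGr.mul_ph, h3.self_of_nhds, h4, h2, one_mul]
      one_mem' := ⟨Gf.one_mem, Filter.Eventually.of_forall fun _ => rfl, rfl⟩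
      inv_mem' := by
        rintro a ⟨ha, h1, h2⟩
        have h3 : ∀ᶠ y in 𝓝 b.1.2, a.g⁻¹ y = y := by
          filter_upwards [h1] with y e
          rw [Equiv.Perm.inv_eq_iff_eq, e]
        refine ⟨Gf.inv_mem ha, h3, ?_⟩
        rw [FGr.inv_ph, h3.self_of_nhds, h2, inv_one] }
  one b := ⟨Gf.one_mem, rfl, b.1.1.1.1, (gPLf.Ob_open b.1.1), b.2.1, le_rfl,
    (gPLf.Str.one b.1.1).2.2⟩
  mul := by
    rintro b c d g h ⟨hg, e, V, hV, hx, hVU, hc⟩ ⟨hh, e', W, hW, hx', hWU, hc'⟩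
    have hgc : Continuous g.g := (Gf_PLH hg).1.cont
    refine ⟨Gf.mul_mem hh hg, ?_, V ∩ g.g ⁻¹' W, hV.inter (hW.preimage hgc),
      ⟨hx, by rw [Set.mem_preimage, e]; exact hx'⟩, Set.inter_subset_left.trans hVU, ?_, ?_⟩
    · change h.g (g.g _) = _
      rw [e, e']
    · intro x hx y hy k
      exact hc'.1 _ hx.2 _ hy.2 (hc.1 x hx.1 y hy.1 k)
    · intro x hx
      obtain ⟨m, n, e1⟩ := hc.2 x hx.1
      obtain ⟨m', n', e2⟩ := hc'.2 (g.g x) hx.2
      refine ⟨m'.sub m n, n'.sub m n, fun y hy => ?_⟩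
      change h.g (g.g y) = _
      rw [L3.ev_sub, L3.ev_sub, e2 (g.g y) ⟨hy.1.2, hc.1 x hx.1 y hy.1.1 hy.2⟩,
        e1 y ⟨hy.1.1, hy.2⟩]
  nAdm := by
    rintro b n ⟨hn, h1, h2⟩
    obtain ⟨V, hVs, hV, hx⟩ := eventually_nhds_iff.1 h1
    refine ⟨hn, h1.self_of_nhds, V ∩ b.1.1.1.1, hV.inter (gPLf.Ob_open b.1.1), ⟨hx, b.2.1⟩,
      Set.inter_subset_right, fun x hx y hy k => ?_, fun x hx =>
      ⟨⟨1, 0, 0⟩, ⟨0, 1, 0⟩, fun y hy => by rw [hVs y hy.1.1]; simp [L3.ev]⟩⟩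
    rw [hVs x hx.1, hVs y hy.1]
    exact k
  conj := by
    rintro b c g n ⟨hg, e, _⟩ ⟨hn, h1, h2⟩
    have hgc : Continuous g.g := (Gf_PLH hg).1.cont
    have h3 : g.g⁻¹ (g.g b.1.2) = b.1.2 := g.g.symm_apply_apply _
    refine ⟨Gf.mul_mem (Gf.mul_mem (Gf.inv_mem hg) hn) hg, ?_, ?_⟩
    · have h4 : Filter.Tendsto g.g (𝓝 b.1.2) (𝓝 c.1.2) := by
        rw [← e]
        exact hgc.continuousAt
      filter_upwards [h4.eventually h1] with y e1
      change g.g⁻¹ (n.g (g.g y)) = y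
      rw [e1]
      exact g.g.symm_apply_apply y
    · have h5 : n.g c.1.2 = c.1.2 := h1.self_of_nhds
      rw [FGr.mul_ph, FGr.mul_ph, FGr.inv_ph, e, h5, h2, mul_one]
      have h6 : g.g⁻¹ c.1.2 = b.1.2 := by rw [← e, h3]
      rw [h6, inv_mul_cancel]

theorem mem_GGN {P : Set P2 → Finset Ln → P2 → Prop} {b : (GG P).Ob} {a : FGr} :
    a ∈ (GG P).N b ↔ a ∈ Gf ∧ (∀ᶠ y in 𝓝 b.1.2, a.g y = y) ∧ a.ph b.1.2 = 1 := Iff.rfl

/-- a system of points of the structured sets; `R U A y`: `y` is one of the points of `(U, A)` -/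
structure PtS (𝔾 : FGeo) (T : ActSet 𝔾.Str) (R : Set P2 → Finset Ln → P2 → Prop) where
  pt : ∀ p : 𝔾.Str.Ob, T.X p → P2
  inj : ∀ p : 𝔾.Str.Ob, Function.Injective (pt p)
  act : ∀ {p q : 𝔾.Str.Ob} {a : FGr} (h : 𝔾.Str.Adm p a q) (x : T.X p),
    pt q (T.act h x) = a.g (pt p x)
  range : ∀ (p : 𝔾.Str.Ob) (y : P2), (∃ x, pt p x = y) ↔ R p.1.1 p.1.2 y

/-- composition of functors induced by the identity of the group -/
theorem idFun_comp {Γ : Type} [Group Γ] {A B C : ActCat Γ} (f : A.Ob → B.Ob) (f' : B.Ob → C.Ob)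
    (h1 : ∀ {a b : A.Ob} {g : Γ}, A.Adm a g b → B.Adm (f a) g (f b))
    (h2 : ∀ {a : A.Ob} {n : Γ}, n ∈ A.N a → n ∈ B.N (f a))
    (h3 : ∀ {a b : B.Ob} {g : Γ}, B.Adm a g b → C.Adm (f' a) g (f' b))
    (h4 : ∀ {a : B.Ob} {n : Γ}, n ∈ B.N a → n ∈ C.N (f' a)) :
    idFun f h1 h2 ⋙ idFun f' h3 h4 =
      idFun (A := A) (A' := C) (fun a => f' (f a)) (fun h => h3 (h1 h)) (fun h => h4 (h2 h)) := by
  refine CategoryTheory.Functor.ext (fun _ => rfl) (fun x y u => ?_)
  induction u using ActCat.ind with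
  | h g hg =>
    refine Eq.trans ?_ (Category.id_comp _).symm
    exact (Category.comp_id _).symm

end C715
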