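import Pool.Agent.Work.MP_c71557_gt.S.Defs
import Pool.Agent.Work.MP_c71557_gt.C.HfA
import Pool.Agent.Work.MP_c71557_gt.K.PhC

set_option autoImplicit false
set_option linter.unusedVariables false

/-!
# MP_c71557_gt, module S/Sc: the homogeneous element of a germ is a cell map (M)

Let `b ∈ Cnf` with `b.ph 0 = a.ph 0` (`Cnf_ex`, C/HfA).
* `b.g = a.g` near `0`: by `Cnf_vec` `b.g (t • dir θ) = t • vec (a.ph 0) θ`, by `Gf_exp` (K/PhC) at `0`
  the same for `a` and `0 ≤ t ≤ ε`; every `y ≠ 0` is `t • dir θ` with `t ≤ 2 ‖y‖` (`exists_dir`,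
  `dir_norm_ge`, G/Rt).  Let `W ⊆ V` be an open neighbourhood of `0` on which `b.g = a.g`.
* for `x, y : P2` there is `s > 0` with `s • x, s • y ∈ W`, and for small `s` always.  All lines of
  `A`, `A'` pass through `0`, so `l.ev (s • x) = s * l.ev x`; `b.g (s • x) = s • b.g x`.
* first part of `CellMap`: `Same A x y` gives `Same A (s • x) (s • y)`, so `Same A' (a.g (s • x))
  (a.g (s • y))`, so `Same A' (b.g x) (b.g y)`.
* second part: let `x : P2`, `s₀ > 0` with `s₀ • x ∈ W` and `m, n : L3` the affine map of `a.g` on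
  `cell V A (s₀ • x)`.  For `y` with `Same A x y` and all small `s > 0`: `s • y ∈ cell V A (s₀ • x)`, so
  `s • b.g y = (m.ev (s • y), n.ev (s • y))`, i.e. `(b.g y).1 = m.lin y + m.c / s` for all small `s`;
  two values of `s` give `m.c = 0` and `(b.g y).1 = m.lin y = (⟨m.a, m.b, 0⟩ : L3).ev y`.  The same for
  `n`.
-/

noncomputable section

namespace C715

open Ang CategoryTheory ActCat
open scoped Topology

private theorem ev_smul0 {l : Ln} (h : l.c = 0) (s : ℝ) (x : P2) : l.ev (s • x) = s * l.ev x := by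
  simp only [Ln.ev, Prod.smul_fst, Prod.smul_snd, smul_eq_mul, h]
  ring

private theorem sgn_smul {l : Ln} (h : l.c = 0) {s : ℝ} (hs : 0 < s) (x : P2) :
    SignType.sign (l.ev (s • x)) = SignType.sign (l.ev x) := by
  rw [ev_smul0 h, sign_mul, sign_pos hs, one_mul]

private theorem small_smul {δ : ℝ} (hδ : 0 < δ) (x : P2) :
    ∃ s : ℝ, 0 < s ∧ ∀ t : ℝ, 0 < t → t ≤ s → ‖t • x‖ < δ := by
  have h1 : 0 < ‖x‖ + 1 := by positivity
  refine ⟨δ / (‖x‖ + 1), by positivity, fun t ht hts => ?_⟩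
  rw [norm_smul, Real.norm_eq_abs, abs_of_pos ht]
  have h2 : t * (‖x‖ + 1) ≤ δ := (le_div_iff₀ h1).1 hts
  nlinarith

theorem scale_cell {a : FGr} (ha : a ∈ Gf) (h0 : a.g 0 = 0) {A A' : Finset Ln}
    (hA : ∀ l ∈ A, l.c = 0) (hA' : ∀ l ∈ A', l.c = 0) {V : Set P2} (hV : IsOpen V)
    (h0V : (0 : P2) ∈ V) (hc : CellMap V A a.g A') :
    ∃ b ∈ Cnf, b.ph 0 = a.ph 0 ∧ (∀ᶠ y in 𝓝 (0 : P2), b.g y = a.g y) ∧
      CellMap Set.univ A b.g A' := by
  obtain ⟨b, hb, hph⟩ := Cnf_ex (a.ph 0)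
  obtain ⟨ε, hε, hexp⟩ := Gf_exp ha 0
  have hEq : ∀ y : P2, ‖y‖ ≤ ε / 2 → b.g y = a.g y := by
    intro y hy
    by_cases hy0 : y = 0
    · rw [hy0, Cnf_zero hb, h0]
    · obtain ⟨t, θ, ht, -, -, rfl⟩ := exists_dir y hy0 0
      have h1 : t ≤ ε := by
        rw [norm_smul, Real.norm_eq_abs, abs_of_pos ht] at hy
        have h2 := dir_norm_ge θ
        nlinarith
      have h3 := hexp θ t ht.le h1
      rw [zero_add, h0, zero_add] at h3
      rw [h3, Cnf_vec hb θ t ht.le, hph]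
  obtain ⟨r, hr, hrV⟩ := Metric.isOpen_iff.1 hV 0 h0V
  have hδ : 0 < min r (ε / 2) := lt_min hr (half_pos hε)
  have hball : ∀ y : P2, ‖y‖ < min r (ε / 2) → y ∈ V ∧ b.g y = a.g y := by
    intro y hy
    refine ⟨hrV ?_, hEq y (hy.le.trans (min_le_right _ _))⟩
    rw [mem_ball_zero_iff]
    exact hy.trans_le (min_le_left _ _)
  refine ⟨b, hb, hph, ?_, ?_, ?_⟩
  · have h1 : ∀ᶠ y in 𝓝 (0 : P2), ‖y‖ < min r (ε / 2) := by
      have h2 : Metric.ball (0 : P2) (min r (ε / 2)) ∈ 𝓝 (0 : P2) := Metric.ball_mem_nhds _ hδ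
      filter_upwards [h2] with y hy
      rwa [mem_ball_zero_iff] at hy
    filter_upwards [h1] with y hy
    exact (hball y hy).2
  · intro x _ y _ h l hl
    obtain ⟨s1, hs1, h1⟩ := small_smul hδ x
    obtain ⟨s2, hs2, h2⟩ := small_smul hδ y
    have hs : 0 < min s1 s2 := lt_min hs1 hs2
    have hx := hball _ (h1 _ hs (min_le_left _ _))
    have hy := hball _ (h2 _ hs (min_le_right _ _))
    have h3 : Same A (min s1 s2 • x) (min s1 s2 • y) := fun l hl => by
      rw [sgn_smul (hA l hl) hs, sgn_smul (hA l hl) hs]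
      exact h l hl
    have h4 := hc.1 _ hx.1 _ hy.1 h3 l hl
    rw [← hx.2, ← hy.2, hb.2 _ _ hs, hb.2 _ _ hs, sgn_smul (hA' l hl) hs,
      sgn_smul (hA' l hl) hs] at h4
    exact h4
  · intro x _
    obtain ⟨s0, hs0, h1⟩ := small_smul hδ x
    have hx := hball _ (h1 _ hs0 le_rfl)
    obtain ⟨m, n, hmn⟩ := hc.2 _ hx.1
    refine ⟨⟨m.a, m.b, 0⟩, ⟨n.a, n.b, 0⟩, fun y hy => ?_⟩
    obtain ⟨s, hs, h2⟩ := small_smul hδ y
    have key : ∀ t : ℝ, 0 < t → t ≤ s → t • b.g y = (m.ev (t • y), n.ev (t • y)) := by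
      intro t ht hts
      have h3 := hball _ (h2 t ht hts)
      rw [← hb.2 _ _ ht, h3.2]
      refine hmn _ ⟨h3.1, fun l hl => ?_⟩
      rw [sgn_smul (hA l hl) hs0, sgn_smul (hA l hl) ht]
      exact hy.2 l hl
    have k1 := key s hs le_rfl
    have k2 := key (s / 2) (half_pos hs) (half_le_self hs.le)
    have a1 := congrArg Prod.fst k1
    have a2 := congrArg Prod.fst k2
    have b1 := congrArg Prod.snd k1
    have b2 := congrArg Prod.snd k2
    simp only [Prod.smul_fst, Prod.smul_snd, smul_eq_mul, L3.ev] at a1 a2 b1 b2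
    refine Prod.ext ?_ ?_
    · simp only [L3.ev]
      have h5 : s * ((b.g y).1 - (m.a * y.1 + m.b * y.2 + 0)) = 0 := by linarith
      rcases mul_eq_zero.1 h5 with h6 | h6
      · exact absurd h6 hs.ne'
      · linarith
    · simp only [L3.ev]
      have h5 : s * ((b.g y).2 - (n.a * y.1 + n.b * y.2 + 0)) = 0 := by linarith
      rcases mul_eq_zero.1 h5 with h6 | h6
      · exact absurd h6 hs.ne'
      · linarith

end C715
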