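import Pool.Agent.Work.MP_c71557_gt.S.Defs
import Pool.Agent.Work.MP_c71557_gt.K.PhC
import Pool.Agent.Work.MP_c71557_gt.H.QA
import Pool.Agent.Work.MP_c71557_gt.H.ActDir

set_option autoImplicit false
set_option linter.unusedVariables false

/-!
# MP_c71557_gt, module S/Tg: structured sets with a point and germs at the point (M)

`quillenA_under` (H/QA) and `acy_under` (H/ActDir) for `idFun f hAdm hN` at the object
`b = ((U₀, A₀), x₀)` of `GG P` (so `x₀ ∈ U₀`, `P U₀ A₀ x₀`).  For an open convex `V` with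
`x₀ ∈ V ⊆ U₀` (take open balls: every neighbourhood of `x₀` contains one,
`convex_ball`) there is the object `e V = (⟨((V, A₀), _)⟩, z)` of `T.El`, where
`h.pt _ z = x₀` (`h.range`, `hP.sh`), and `f (e V) = ((V, A₀), x₀)` by `hf` (up to equality of pairs).
* nonempty: `e V` for some ball `V ⊆ U₀`, `g = 1`: `(GG P).Adm b 1 (f (e V))` with the same `V`
  (`CellMap V A₀ 1 A₀` is `(gPLf.Str.one _).2.2`).
* `hdir`: `g_i : b → f a_i` with open `V_i`, `CellMap V_i A₀ g_i.g A_i` and `g_i.g x₀` = the point of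
  `a_i`, in the open set `U_i`.  Let `V` be a ball around `x₀` in `V_1 ∩ V_2`, mapped by `g_i.g` into
  `U_i` (continuity); `a3 = e V`, `g3 = 1`, `k_i = g_i`; `T.El.Adm (e V) g_i a_i`: `gPLf.Str.Adm` by
  `CellMap.sub`, and `T.act _ z = a_i.2` because both have the same point (`h.inj`, `h.act`).
  `(g_i * 1)⁻¹ * g_i = 1`.
* `heq`: `g : b → f a`, `k, k' : a → a'`, `(k g)⁻¹ (k' g) ∈ (GG P).N b`: it is the identity near `x₀`
  and has `ph = 1` at `x₀`.  Take `V` a ball as before for `g`, on which moreover it is the identity;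
  `a3 = e V`, `g3 = 1`, `m = g`; `(k g)⁻¹ (k' g)` is in `gPLf.Str.N (V, A₀)` by `ph_one_of_id` (K/PhC).
-/

noncomputable section

namespace C715

open Ang CategoryTheory ActCat
open scoped Topology

private theorem adm_iff {P : Set P2 → Finset Ln → P2 → Prop} {T : ActSet gPLf.Str}
    (h : PtS gPLf T (fun U A y => y ∈ U ∧ P U A y)) (f : T.El.Ob → (GG P).Ob)
    (hf : ∀ p, (f p).1 = (p.1, h.pt p.1 p.2)) (b : (GG P).Ob) (g : FGr) (a : T.El.Ob) :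
    (GG P).Adm b g (f a) ↔ g ∈ Gf ∧ g.g b.1.2 = h.pt a.1 a.2 ∧ ∃ V : Set P2, IsOpen V ∧
      b.1.2 ∈ V ∧ V ⊆ b.1.1.1.1 ∧ CellMap V b.1.1.1.2 g.g a.1.1.2 := by
  change (g ∈ Gf ∧ g.g b.1.2 = (f a).1.2 ∧ ∃ V : Set P2, IsOpen V ∧ b.1.2 ∈ V ∧
    V ⊆ b.1.1.1.1 ∧ CellMap V b.1.1.1.2 g.g (f a).1.1.1.2) ↔ _
  rw [hf a]

/-- small objects -/
private theorem exE {P : Set P2 → Finset Ln → P2 → Prop} (hP : PrP P) {T : ActSet gPLf.Str}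
    (h : PtS gPLf T (fun U A y => y ∈ U ∧ P U A y)) (f : T.El.Ob → (GG P).Ob)
    (hf : ∀ p, (f p).1 = (p.1, h.pt p.1 p.2)) (b : (GG P).Ob) {V : Set P2} (hV : IsOpen V)
    (hx : b.1.2 ∈ V) : ∃ a : T.El.Ob, a.1.1.1 ⊆ V ∧ a.1.1.2 = b.1.1.1.2 ∧
      h.pt a.1 a.2 = b.1.2 ∧ b.1.2 ∈ a.1.1.1 ∧ (GG P).Adm b 1 (f a) := by
  have hU : IsOpen b.1.1.1.1 := gPLf.Ob_open b.1.1
  obtain ⟨r, hr, hrV⟩ := Metric.isOpen_iff.1 (hV.inter hU) b.1.2 ⟨hx, b.2.1⟩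
  have hxr : b.1.2 ∈ Metric.ball b.1.2 r := Metric.mem_ball_self hr
  let p : gPLf.Str.Ob := ⟨(Metric.ball b.1.2 r, b.1.1.1.2),
    ⟨Metric.isOpen_ball, convex_ball _ _, ⟨b.1.2, hxr⟩⟩, fun _ _ => trivial⟩
  have hPp : P (Metric.ball b.1.2 r) b.1.1.1.2 b.1.2 :=
    hP.sh _ _ _ _ b.2.2 Metric.isOpen_ball hxr (hrV.trans Set.inter_subset_right)
  obtain ⟨z, hz⟩ := (h.range p b.1.2).2 ⟨hxr, hPp⟩
  refine ⟨⟨p, z⟩, hrV.trans Set.inter_subset_left, rfl, hz, hxr, (adm_iff h f hf _ _ _).2 ?_⟩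
  refine ⟨Gf.one_mem, hz.symm, b.1.1.1.1, hU, b.2.1, le_rfl, ?_⟩
  exact (gPLf.Str.one b.1.1).2.2

/-- restriction of germs -/
private theorem lower {P : Set P2 → Finset Ln → P2 → Prop} {T : ActSet gPLf.Str}
    (h : PtS gPLf T (fun U A y => y ∈ U ∧ P U A y)) (f : T.El.Ob → (GG P).Ob)
    (hf : ∀ p, (f p).1 = (p.1, h.pt p.1 p.2)) (b : (GG P).Ob) (g : FGr) (a : T.El.Ob)
    (hg : (GG P).Adm b g (f a)) : ∃ W : Set P2, IsOpen W ∧ b.1.2 ∈ W ∧ ∀ a3 : T.El.Ob,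
      a3.1.1.1 ⊆ W → a3.1.1.2 = b.1.1.1.2 → h.pt a3.1 a3.2 = b.1.2 → T.El.Adm a3 g a := by
  obtain ⟨h1, h2, V, hV, hx, hVU, hc⟩ := (adm_iff h f hf b g a).1 hg
  have hgc : Continuous g.g := (Gf_PLH h1).1.cont
  have hpt : h.pt a.1 a.2 ∈ a.1.1.1 := ((h.range a.1 _).1 ⟨a.2, rfl⟩).1
  refine ⟨V ∩ g.g ⁻¹' a.1.1.1, hV.inter ((gPLf.Ob_open a.1).preimage hgc),
    ⟨hx, by rw [Set.mem_preimage, h2]; exact hpt⟩, fun a3 k1 k2 k3 => ?_⟩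
  have k4 : gPLf.Str.Adm a3.1 g a.1 := by
    refine ⟨h1, fun x hx => (k1 hx).2, ?_⟩
    rw [k2]
    exact hc.sub (k1.trans Set.inter_subset_left)
  refine ⟨k4, h.inj a.1 ?_⟩
  rw [h.act, k3, h2]

theorem hiso_TG {P : Set P2 → Finset Ln → P2 → Prop} (hP : PrP P) {T : ActSet gPLf.Str}
    (h : PtS gPLf T (fun U A y => y ∈ U ∧ P U A y)) (f : T.El.Ob → (GG P).Ob)
    (hf : ∀ p, (f p).1 = (p.1, h.pt p.1 p.2))
    (hAdm : ∀ {a b : T.El.Ob} {g : FGr}, T.El.Adm a g b → (GG P).Adm (f a) g (f b))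
    (hN : ∀ {a : T.El.Ob} {n : FGr}, n ∈ T.El.N a → n ∈ (GG P).N (f a)) :
    HIso (idFun f hAdm hN) := by
  refine quillenA_under _ fun b => ?_
  obtain ⟨b⟩ := b
  have hcan : ∀ g : FGr, (g * 1)⁻¹ * g ∈ (GG P).N b := by
    intro g
    rw [mul_one, inv_mul_cancel]
    exact ((GG P).N b).one_mem
  refine acy_under f hAdm hN b ?_ ?_ ?_
  · obtain ⟨a, -, -, -, -, h1⟩ := exE hP h f hf b isOpen_univ (Set.mem_univ _)
    exact ⟨a, 1, h1⟩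
  · intro a1 g1 a2 g2 h1 h2
    obtain ⟨W1, hW1, hx1, k1⟩ := lower h f hf b g1 a1 h1
    obtain ⟨W2, hW2, hx2, k2⟩ := lower h f hf b g2 a2 h2
    obtain ⟨a3, e1, e2, e3, -, e4⟩ := exE hP h f hf b (hW1.inter hW2) ⟨hx1, hx2⟩
    exact ⟨a3, 1, g1, g2, e4, k1 a3 (e1.trans Set.inter_subset_left) e2 e3,
      k2 a3 (e1.trans Set.inter_subset_right) e2 e3, hcan g1, hcan g2⟩
  · intro a a' g k k' hg hk hk' hn
    obtain ⟨n1, n2, n3⟩ := mem_GGN.1 hn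
    obtain ⟨W, hW, hx, k1⟩ := lower h f hf b g a hg
    obtain ⟨V, hVs, hV, hxV⟩ := eventually_nhds_iff.1 n2
    obtain ⟨a3, e1, e2, e3, e5, e4⟩ := exE hP h f hf b (hW.inter hV) ⟨hx, hxV⟩
    refine ⟨a3, 1, g, e4, k1 a3 (e1.trans Set.inter_subset_left) e2 e3, hcan g, ?_⟩
    have h3 : ∀ x ∈ a3.1.1.1, ((k * g)⁻¹ * (k' * g)).g x = x := fun x hx => hVs x (e1 hx).2
    have h4 := a3.1.2.1
    exact ⟨n1, fun x hx => ⟨h3 x hx, ph_one_of_id n1 h4.1 h4.2.1 h3 e5 n3 x hx⟩⟩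

end C715
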